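import Pool.Agent.X136.BN.Lower

set_option autoImplicit false

/-!
# The threshold of the bidirectional `k`-neighbour graph is of order `√d`

Definitions: `Pool.Agent.X136.BN.Defs` (`Dir`, `vec`, `opp`, `Choice`, `Config`, `bng`,
`choiceLaw`, `law`, `theta`).
-/

namespace Pool.Agent.Results.MP_8219fb_pr.SqrtOrder

open Pool.Agent.X136.BN

/-- `k_c(d)`: the smallest `k ∈ {1, …, 2 d}` with `θ^B(k, d) > 0`. -/
noncomputable def kc (d : ℕ) : ℕ := sInf {k : ℕ | 1 ≤ k ∧ ∃ h : k ≤ 2 * d, 0 < theta d k h}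

theorem nonempty {d : ℕ} (hd : 1 ≤ d) :
    {k : ℕ | 1 ≤ k ∧ ∃ h : k ≤ 2 * d, 0 < theta d k h}.Nonempty :=
  ⟨2 * d, by omega, le_rfl, theta_full hd⟩

theorem kc_le {d k : ℕ} (hk : 1 ≤ k) (h : k ≤ 2 * d) (ht : 0 < theta d k h) : kc d ≤ k :=
  Nat.sInf_le ⟨hk, h, ht⟩

theorem kc_le_two {d : ℕ} (hd : 1 ≤ d) : kc d ≤ 2 * d :=
  kc_le (by omega) le_rfl (theta_full hd)

/-- **The order of growth of the threshold is `√d`.** -/
theorem result : ∃ C : ℝ, 0 < C ∧ ∀ d : ℕ, 1 ≤ d →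
    Real.sqrt d ≤ kc d ∧ (kc d : ℝ) ≤ C * Real.sqrt d := by
  obtain ⟨C, hC, hperc⟩ := perc_const
  refine ⟨C + 6, by linarith, fun d hd => ⟨?_, ?_⟩⟩
  · obtain ⟨h1, h2, h3⟩ := Nat.sInf_mem (nonempty hd)
    have hd' : (1 : ℝ) ≤ d := by exact_mod_cast hd
    have h1' : (1 : ℝ) ≤ kc d := by exact_mod_cast h1
    have h4 : ¬ ((kc d : ℝ) * (kc d - 1) < 2 * d - 1) := fun h =>
      h3.ne' (theta_zero hd h2 h)
    push Not at h4
    apply Real.sqrt_le_iff.2
    constructor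
    · linarith
    · nlinarith
  · have hd' : (1 : ℝ) ≤ d := by exact_mod_cast hd
    have hs : 1 ≤ Real.sqrt d := Real.one_le_sqrt.2 hd'
    have hss : Real.sqrt d * Real.sqrt d = d := Real.mul_self_sqrt (by linarith)
    rcases Nat.lt_or_ge d 6 with h6 | h6
    · have h1 : (kc d : ℝ) ≤ 2 * d := by exact_mod_cast kc_le_two hd
      have h2 : (d : ℝ) ≤ 6 := by exact_mod_cast h6.le
      have h3 : Real.sqrt d ≤ 3 := Real.sqrt_le_iff.2 ⟨by norm_num, by linarith⟩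
      nlinarith
    · set k := ⌈C * Real.sqrt d⌉₊ with hk
      have h1 : C * Real.sqrt d ≤ k := Nat.le_ceil _
      have h2 : (k : ℝ) < C * Real.sqrt d + 1 := Nat.ceil_lt_add_one (by positivity)
      have h0 : 1 ≤ k := Nat.ceil_pos.2 (by positivity)
      rcases Nat.lt_or_ge (2 * d) k with h3 | h3
      · have h4 : (kc d : ℝ) ≤ 2 * d := by exact_mod_cast kc_le_two hd
        have h5 : (2 * d : ℝ) < k := by exact_mod_cast h3
        nlinarith
      · have h4 : (kc d : ℝ) ≤ k := by exact_mod_cast kc_le h0 h3 (hperc d k h3 h6 h1)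
        nlinarith

end Pool.Agent.Results.MP_8219fb_pr.SqrtOrder
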